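import Mathlib

/-!
# A counting lemma

A finite group `N` with a normal subgroup `Z`, and for every `x` outside `Z` a subgroup `M x`
with `x ∈ M x`, `Z ≤ M x`, such that `M y = M x` for `y ∈ M x` outside `Z`, the family is
invariant under conjugation, and `M x` is its own normalizer. Then all the subgroups `M x` are
the whole group.
-/

namespace Pool.Agent.K7.H87.Rig

variable {N : Type*} [Group N] [Finite N]

/-- The elements outside `Z` which are conjugate into `M`. -/
def Cj (Z M : Subgroup N) : Set N := {y | y ∉ Z ∧ ∃ g : N, g⁻¹ * y * g ∈ M}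

omit [Finite N] in
lemma mem_Cj {Z M : Subgroup N} {y : N} : y ∈ Cj Z M ↔ y ∉ Z ∧ ∃ g : N, g⁻¹ * y * g ∈ M := Iff.rfl

lemma card_Cj (Z : Subgroup N) [Z.Normal] (M : Subgroup N) (hZM : Z ≤ M)
    (hTI : ∀ g : N, ∀ m ∈ M, m ∉ Z → g * m * g⁻¹ ∈ M → g ∈ M) :
    Nat.card M * Nat.card (Cj Z M) = Nat.card N * (Nat.card M - Nat.card Z) := by
  classical
  have : Fintype N := Fintype.ofFinite N
  -- count the pairs `(g, m)`
  let S : Finset (N × N) := Finset.univ.filter fun p => p.2 ∈ M ∧ p.2 ∉ Z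
  let T : Finset N := Finset.univ.filter fun y => y ∈ Cj Z M
  have hST : ∀ p ∈ S, p.1 * p.2 * p.1⁻¹ ∈ T := by
    intro p hp
    simp only [S, Finset.mem_filter, Finset.mem_univ, true_and] at hp
    simp only [T, Finset.mem_filter, Finset.mem_univ, true_and, mem_Cj]
    refine ⟨fun h => hp.2 ?_, p.1, ?_⟩
    · have := ‹Z.Normal›.conj_mem _ h p.1⁻¹
      simpa [mul_assoc] using this
    · simpa [mul_assoc] using hp.1
  have hfib : ∀ y ∈ T, (S.filter fun p => p.1 * p.2 * p.1⁻¹ = y).card = Nat.card M := by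
    intro y hy
    simp only [T, Finset.mem_filter, Finset.mem_univ, true_and, mem_Cj] at hy
    obtain ⟨hyZ, g₀, hg₀⟩ := hy
    rw [Nat.card_eq_fintype_card, ← Fintype.card_coe]
    refine Fintype.card_congr ?_
    have hm0 : g₀⁻¹ * y * g₀ ∉ Z := fun h => hyZ (by
      have := ‹Z.Normal›.conj_mem _ h g₀
      simpa [mul_assoc] using this)
    refine ⟨fun p => ⟨g₀⁻¹ * p.1.1, ?_⟩, fun m => ⟨(g₀ * m.1, (g₀ * m.1)⁻¹ * y * (g₀ * m.1)), ?_⟩,
      ?_, ?_⟩
    · have hp := p.2
      simp only [S, Finset.mem_filter, Finset.mem_univ, true_and] at hp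
      obtain ⟨⟨h1, h2⟩, h3⟩ := hp
      apply hTI _ _ h1 h2
      have : g₀⁻¹ * p.1.1 * p.1.2 * (g₀⁻¹ * p.1.1)⁻¹ = g₀⁻¹ * y * g₀ := by
        have e : g₀⁻¹ * p.1.1 * p.1.2 * (g₀⁻¹ * p.1.1)⁻¹ =
          g₀⁻¹ * (p.1.1 * p.1.2 * p.1.1⁻¹) * g₀ := by group
        rw [e, h3]
      rw [this]
      exact hg₀
    · simp only [S, Finset.mem_filter, Finset.mem_univ, true_and]
      have h1 : (g₀ * m.1)⁻¹ * y * (g₀ * m.1) = m.1⁻¹ * (g₀⁻¹ * y * g₀) * m.1 := by group
      refine ⟨⟨?_, ?_⟩, by group⟩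
      · rw [h1]
        exact M.mul_mem (M.mul_mem (M.inv_mem m.2) hg₀) m.2
      · rw [h1]
        intro h
        apply hm0
        have := ‹Z.Normal›.conj_mem _ h m.1
        simpa [mul_assoc] using this
    · rintro ⟨⟨a, b⟩, hp⟩
      simp only [S, Finset.mem_filter, Finset.mem_univ, true_and] at hp
      obtain ⟨-, h3⟩ := hp
      apply Subtype.ext
      show (g₀ * (g₀⁻¹ * a), (g₀ * (g₀⁻¹ * a))⁻¹ * y * (g₀ * (g₀⁻¹ * a))) = (a, b)
      rw [← h3, mul_inv_cancel_left]
      congr 1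
      group
    · rintro ⟨m, hm⟩
      apply Subtype.ext
      show g₀⁻¹ * (g₀ * m) = m
      group
  have h1 : S.card = T.card * Nat.card M := by
    rw [Finset.card_eq_sum_card_fiberwise (f := fun p : N × N => p.1 * p.2 * p.1⁻¹) (t := T) hST,
      Finset.sum_congr rfl hfib, Finset.sum_const, smul_eq_mul]
  have h2 : S.card = Nat.card N * (Nat.card M - Nat.card Z) := by
    have : S = (Finset.univ : Finset N) ×ˢ (Finset.univ.filter fun m => m ∈ M ∧ m ∉ Z) := by
      ext p
      simp [S]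
    rw [this, Finset.card_product, Finset.card_univ, Nat.card_eq_fintype_card]
    congr 1
    have h3 : (Finset.univ.filter fun m => m ∈ M ∧ m ∉ Z) =
        (Finset.univ.filter fun m => m ∈ M) \ (Finset.univ.filter fun m => m ∈ Z) := by
      ext m
      simp
    rw [h3, Finset.card_sdiff_of_subset]
    · congr 1
      · rw [Nat.card_eq_fintype_card, Fintype.card_subtype]
      · rw [Nat.card_eq_fintype_card, Fintype.card_subtype]
    · intro m hm
      simp only [Finset.mem_filter, Finset.mem_univ, true_and] at hm ⊢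
      exact hZM hm
  have h3 : Nat.card (Cj Z M) = T.card := by
    rw [Nat.card_eq_fintype_card, Fintype.card_subtype]
  rw [h3, ← h2, h1, mul_comm]

theorem count (Z : Subgroup N) [Z.Normal] (M : N → Subgroup N)
    (h1 : ∀ x, x ∉ Z → x ∈ M x) (hZ : ∀ x, x ∉ Z → Z ≤ M x)
    (h2 : ∀ x y, x ∉ Z → y ∉ Z → y ∈ M x → M y = M x)
    (hTI : ∀ x, x ∉ Z → ∀ g : N, ∀ m ∈ M x, m ∉ Z → g * m * g⁻¹ ∈ M x → g ∈ M x)
    (hconj : ∀ x g, x ∉ Z → ∀ z, z ∈ M x → g * z * g⁻¹ ∈ M (g * x * g⁻¹)) :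
    ∀ x, x ∉ Z → M x = ⊤ := by
  classical
  intro x hx
  by_contra hne
  have : Fintype N := Fintype.ofFinite N
  have hN : 0 < Nat.card N := Nat.card_pos
  -- every orbit is large
  have hlarge : ∀ x, x ∉ Z → Nat.card N ≤ 2 * Nat.card (Cj Z (M x)) := by
    intro x hx
    have hc := card_Cj Z (M x) (hZ x hx) (hTI x hx)
    have hzpos : 0 < Nat.card Z := Nat.card_pos
    have hmpos : 0 < Nat.card (M x) := Nat.card_pos
    have hdvd : Nat.card Z ∣ Nat.card (M x) := Subgroup.card_dvd_of_le (hZ x hx)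
    have hlt : Nat.card Z < Nat.card (M x) := by
      refine lt_of_le_of_ne (Nat.le_of_dvd hmpos hdvd) fun heq => hx ?_
      have : Z = M x := Subgroup.eq_of_le_of_card_ge (hZ x hx) heq.ge
      rw [this]
      exact h1 x hx
    have h2z : 2 * Nat.card Z ≤ Nat.card (M x) := by
      obtain ⟨c, hc'⟩ := hdvd
      have : 2 ≤ c := by
        by_contra hcon
        interval_cases c
        · omega
        · omega
      rw [hc', mul_comm]
      exact Nat.mul_le_mul_left _ this
    have h3 : Nat.card (M x) ≤ 2 * (Nat.card (M x) - Nat.card Z) := by omega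
    have h4 : Nat.card (M x) * Nat.card N ≤ Nat.card (M x) * (2 * Nat.card (Cj Z (M x))) := by
      calc Nat.card (M x) * Nat.card N ≤ 2 * (Nat.card (M x) - Nat.card Z) * Nat.card N :=
            Nat.mul_le_mul_right _ h3
        _ = 2 * (Nat.card N * (Nat.card (M x) - Nat.card Z)) := by ring
        _ = 2 * (Nat.card (M x) * Nat.card (Cj Z (M x))) := by rw [hc]
        _ = Nat.card (M x) * (2 * Nat.card (Cj Z (M x))) := by ring
    exact Nat.le_of_mul_le_mul_left h4 hmpos
  -- the orbit of `M x` does not cover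
  have hex : ∃ y, y ∉ Z ∧ y ∉ Cj Z (M x) := by
    by_contra hcon
    push Not at hcon
    have hcardCj : Nat.card (Cj Z (M x)) = Nat.card N - Nat.card Z := by
      have : Cj Z (M x) = (Z : Set N)ᶜ := by
        ext y
        constructor
        · intro h; exact h.1
        · intro h; exact hcon y h
      rw [this, Nat.card_eq_fintype_card, Fintype.card_compl_set, Nat.card_eq_fintype_card,
        Nat.card_eq_fintype_card]
      rfl
    have hc := card_Cj Z (M x) (hZ x hx) (hTI x hx)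
    rw [hcardCj] at hc
    have hzpos : 0 < Nat.card Z := Nat.card_pos
    have hle1 : Nat.card Z ≤ Nat.card (M x) := Subgroup.card_le_of_le (hZ x hx)
    have hle2 : Nat.card (M x) ≤ Nat.card N := Subgroup.card_le_card_group _
    apply hne
    apply Subgroup.eq_top_of_card_eq
    have h5 : Nat.card (M x) * (Nat.card N - Nat.card Z) =
        Nat.card (M x) * Nat.card N - Nat.card (M x) * Nat.card Z := Nat.mul_sub _ _ _
    have h6 : Nat.card N * (Nat.card (M x) - Nat.card Z) =
        Nat.card N * Nat.card (M x) - Nat.card N * Nat.card Z := Nat.mul_sub _ _ _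
    rw [h5, h6] at hc
    have h7 : Nat.card (M x) * Nat.card Z ≤ Nat.card (M x) * Nat.card N :=
      Nat.mul_le_mul_left _ (hle1.trans hle2)
    have h8 : Nat.card N * Nat.card Z ≤ Nat.card N * Nat.card (M x) := Nat.mul_le_mul_left _ hle1
    have h9 : Nat.card N * Nat.card (M x) = Nat.card (M x) * Nat.card N := mul_comm _ _
    have h10 : Nat.card (M x) * Nat.card Z = Nat.card N * Nat.card Z := by omega
    exact Nat.eq_of_mul_eq_mul_right hzpos h10
  obtain ⟨y, hyZ, hy⟩ := hex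
  have hdisj : Disjoint (Cj Z (M x)) (Cj Z (M y)) := by
    rw [Set.disjoint_left]
    rintro w ⟨hwZ, g, hg⟩ ⟨-, g', hg'⟩
    apply hy
    refine ⟨hyZ, ?_⟩
    have hw1 : g⁻¹ * w * g ∉ Z := fun h => hwZ (by
      have := ‹Z.Normal›.conj_mem _ h g
      simpa [mul_assoc] using this)
    have hw2 : g'⁻¹ * w * g' ∉ Z := fun h => hwZ (by
      have := ‹Z.Normal›.conj_mem _ h g'
      simpa [mul_assoc] using this)
    have e1 := h2 x _ hx hw1 hg
    have e2 := h2 y _ hyZ hw2 hg'
    have e3 := hconj (g'⁻¹ * w * g') (g⁻¹ * g') hw2 y (by rw [e2]; exact h1 y hyZ)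
    have e4 : g⁻¹ * g' * (g'⁻¹ * w * g') * (g⁻¹ * g')⁻¹ = g⁻¹ * w * g := by group
    rw [e4, e1] at e3
    refine ⟨g'⁻¹ * g, ?_⟩
    have e5 : (g'⁻¹ * g)⁻¹ * y * (g'⁻¹ * g) = g⁻¹ * g' * y * (g⁻¹ * g')⁻¹ := by group
    rw [e5]
    exact e3
  have hsum : Nat.card (Cj Z (M x)) + Nat.card (Cj Z (M y)) < Nat.card N := by
    have h3 : (Cj Z (M x) ∪ Cj Z (M y)) ⊂ (Set.univ : Set N) := by
      refine (Set.ssubset_univ_iff).2 fun h => ?_
      have : (1 : N) ∈ Cj Z (M x) ∪ Cj Z (M y) := by rw [h]; trivial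
      rcases this with h | h
      · exact h.1 Z.one_mem
      · exact h.1 Z.one_mem
    have h4 := Set.ncard_lt_ncard h3 (Set.toFinite _)
    rw [Set.ncard_union_eq hdisj (Set.toFinite _) (Set.toFinite _), Set.ncard_univ] at h4
    rw [Nat.card_coe_set_eq, Nat.card_coe_set_eq]
    exact h4
  have l1 := hlarge x hx
  have l2 := hlarge y hyZ
  omega

end Pool.Agent.K7.H87.Rig
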