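import Pool.Agent.K7.H87.Rig.Count

/-!
# Groups with a simple quotient which is locally induced by centralizers

`φ : Γ → K` is a surjection of finite groups, `K` is simple and not commutative. A subgroup `H`
of `Γ` is covering if `φ H = K`. Suppose that the order of the kernel is at most the order of
`K` and that for every covering subgroup `H` and every subgroup `D` of the kernel of prime power
order which is normalized by `H` the centralizer of `D` in `H` is covering. Then the centralizer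
of the kernel is covering.
-/

namespace Pool.Agent.K7.H87.Rig

open scoped commutatorElement

universe u v

variable {K : Type v} [Group K]

/-- `H` is mapped onto `K`. -/
def Cov {Γ : Type u} [Group Γ] (φ : Γ →* K) (H : Subgroup Γ) : Prop := ∀ k : K, ∃ h ∈ H, φ h = k

/-- The local condition. -/
def Loc {Γ : Type u} [Group Γ] (φ : Γ →* K) : Prop :=
  ∀ H : Subgroup Γ, Cov φ H → ∀ q : ℕ, q.Prime → ∀ D : Subgroup Γ, D ≤ φ.ker → IsPGroup q D →
    (∀ h ∈ H, ∀ d ∈ D, h * d * h⁻¹ ∈ D) → Cov φ (H ⊓ Subgroup.centralizer (D : Set Γ))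

section basic

variable {Γ : Type u} [Group Γ] {φ : Γ →* K}

lemma Cov.mono {H H' : Subgroup Γ} (h : Cov φ H) (hle : H ≤ H') : Cov φ H' := fun k => by
  obtain ⟨x, hx, hk⟩ := h k
  exact ⟨x, hle hx, hk⟩

/-- A subgroup of a covering subgroup which is normalized by it and not in the kernel. -/
lemma Cov.of_normal [IsSimpleGroup K] {H C : Subgroup Γ} (hH : Cov φ H)
    (hn : ∀ h ∈ H, ∀ c ∈ C, h * c * h⁻¹ ∈ C) (hne : ∃ c ∈ C, φ c ≠ 1) : Cov φ C := by
  have hnorm : (C.map φ).Normal := by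
    refine ⟨?_⟩
    rintro _ ⟨c, hc, rfl⟩ k
    obtain ⟨h, hh, rfl⟩ := hH k
    exact ⟨h * c * h⁻¹, hn h hh c hc, by simp⟩
  rcases hnorm.eq_bot_or_eq_top with h | h
  · obtain ⟨c, hc, hc1⟩ := hne
    exfalso
    apply hc1
    have : φ c ∈ C.map φ := ⟨c, hc, rfl⟩
    rw [h] at this
    exact Subgroup.mem_bot.1 this
  · intro k
    have : k ∈ C.map φ := by rw [h]; trivial
    obtain ⟨c, hc, hk⟩ := this
    exact ⟨c, hc, hk⟩

lemma Cov.commutator (hK : commutator K = ⊤) {H : Subgroup Γ} (hH : Cov φ H) : Cov φ ⁅H, H⁆ := by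
  have h1 : H.map φ = ⊤ := by
    rw [eq_top_iff]
    intro k _
    obtain ⟨h, hh, hk⟩ := hH k
    exact ⟨h, hh, hk⟩
  have h2 : (⁅H, H⁆).map φ = ⊤ := by
    rw [Subgroup.map_commutator, h1]
    exact hK
  intro k
  have : k ∈ (⁅H, H⁆).map φ := by rw [h2]; trivial
  obtain ⟨c, hc, hk⟩ := this
  exact ⟨c, hc, hk⟩

lemma exists_min [Finite Γ] {H : Subgroup Γ} (hH : Cov φ H) : ∃ L ≤ H, Minimal (Cov φ) L :=
  exists_minimal_le_of_wellFoundedLT _ _ hH

lemma min_perfect (hK : commutator K = ⊤) {L : Subgroup Γ} (hL : Minimal (Cov φ) L) :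
    ⁅L, L⁆ = L :=
  le_antisymm (Subgroup.commutator_le_self L) (hL.2 (hL.1.commutator hK)
    (Subgroup.commutator_le_self L))

lemma min_le {L H : Subgroup Γ} (hL : Minimal (Cov φ) L) (h : Cov φ (L ⊓ H)) : L ≤ H :=
  (hL.2 h inf_le_left).trans inf_le_right

/-- Conjugates of minimal covering subgroups. -/
lemma min_conj {L : Subgroup Γ} (hL : Minimal (Cov φ) L) (g : Γ) :
    Minimal (Cov φ) (L.map (MulAut.conj g).toMonoidHom) := by
  have key : ∀ (L : Subgroup Γ) (g : Γ), Cov φ L → Cov φ (L.map (MulAut.conj g).toMonoidHom) := by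
    intro L g hL k
    obtain ⟨l, hl, hk⟩ := hL ((φ g)⁻¹ * k * φ g)
    refine ⟨g * l * g⁻¹, ⟨l, hl, rfl⟩, ?_⟩
    simp [hk, mul_assoc]
  refine ⟨key L g hL.1, fun L' hL' hle => ?_⟩
  have h1 : L'.map (MulAut.conj g⁻¹).toMonoidHom ≤ L := by
    rintro _ ⟨l', hl', rfl⟩
    obtain ⟨l, hl, rfl⟩ := hle hl'
    simpa [mul_assoc] using hl
  have h2 := hL.2 (key L' g⁻¹ hL') h1
  rintro _ ⟨l, hl, rfl⟩
  obtain ⟨l', hl', he⟩ := h2 hl
  have : l' = g * l * g⁻¹ := by
    rw [← he]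
    simp [mul_assoc]
  show g * l * g⁻¹ ∈ L'
  rw [← this]
  exact hl'

end basic

/-- The local condition is inherited by subgroups. -/
lemma Loc.subgroup {Γ : Type u} [Group Γ] {φ : Γ →* K} (h : Loc φ) (H₀ : Subgroup Γ) :
    Loc (φ.comp H₀.subtype) := by
  intro H hH q hq D hD hDq hn
  have h1 := h (H.map H₀.subtype) (fun k => by
    obtain ⟨x, hx, hk⟩ := hH k
    exact ⟨x, ⟨x, hx, rfl⟩, hk⟩) q hq (D.map H₀.subtype) (by
      rintro _ ⟨d, hd, rfl⟩
      exact hD hd) (hDq.map _) (by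
      rintro _ ⟨x, hx, rfl⟩ _ ⟨d, hd, rfl⟩
      exact ⟨x * d * x⁻¹, hn x hx d hd, by simp⟩)
  intro k
  obtain ⟨_, ⟨⟨x, hx, rfl⟩, hc⟩, hk⟩ := h1 k
  refine ⟨x, ⟨hx, ?_⟩, hk⟩
  show x ∈ Subgroup.centralizer (D : Set H₀)
  have hc' := Subgroup.mem_centralizer_iff.1 hc
  rw [Subgroup.mem_centralizer_iff]
  intro d hd
  exact Subtype.ext (hc' d ⟨d, hd, rfl⟩)

/-- Uniqueness of the minimal covering subgroup of `H`, if the kernel in `H` is smaller than `K`
and the centralizer of the kernel in `H` is covering. -/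
lemma unique_min {Γ : Type u} [Group Γ] [Finite Γ] {φ : Γ →* K} [IsSimpleGroup K] [Finite K]
    (hK : commutator K = ⊤) (H : Subgroup Γ)
    (hcard : Nat.card (H ⊓ φ.ker : Subgroup Γ) < Nat.card K)
    (hY : Cov φ (H ⊓ Subgroup.centralizer ((H ⊓ φ.ker : Subgroup Γ) : Set Γ)))
    {L : Subgroup Γ} (hL : Minimal (Cov φ) L) (hLH : L ≤ H) :
    L ≤ Subgroup.centralizer ((H ⊓ φ.ker : Subgroup Γ) : Set Γ) ∧
    L = ⁅H ⊓ Subgroup.centralizer ((H ⊓ φ.ker : Subgroup Γ) : Set Γ),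
      H ⊓ Subgroup.centralizer ((H ⊓ φ.ker : Subgroup Γ) : Set Γ)⁆ := by
  set N' : Subgroup Γ := H ⊓ φ.ker with hN'
  set Y : Subgroup Γ := H ⊓ Subgroup.centralizer (N' : Set Γ) with hYdef
  have hnormN : ∀ h ∈ H, ∀ n ∈ N', h * n * h⁻¹ ∈ N' := by
    intro h hh n hn
    refine ⟨H.mul_mem (H.mul_mem hh hn.1) (H.inv_mem hh), ?_⟩
    have h2 : φ n = 1 := hn.2
    show φ (h * n * h⁻¹) = 1
    rw [map_mul, map_mul, h2, mul_one, map_inv, mul_inv_cancel]
  have hnormY : ∀ h ∈ H, ∀ y ∈ Y, h * y * h⁻¹ ∈ Y := by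
    intro h hh y hy
    refine ⟨H.mul_mem (H.mul_mem hh hy.1) (H.inv_mem hh), ?_⟩
    show h * y * h⁻¹ ∈ Subgroup.centralizer (N' : Set Γ)
    rw [Subgroup.mem_centralizer_iff]
    intro n hn
    have h1 : h⁻¹ * n * h ∈ N' := by
      have := hnormN h⁻¹ (H.inv_mem hh) n hn
      simpa using this
    have h2 := Subgroup.mem_centralizer_iff.1 hy.2 _ h1
    calc n * (h * y * h⁻¹) = h * ((h⁻¹ * n * h) * y) * h⁻¹ := by group
      _ = h * (y * (h⁻¹ * n * h)) * h⁻¹ := by rw [h2]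
      _ = h * y * h⁻¹ * n := by group
  have hLY : L ≤ Y := by
    apply min_le hL
    apply Cov.of_normal hL.1
    · intro l hl c hc
      exact ⟨L.mul_mem (L.mul_mem hl hc.1) (L.inv_mem hl), hnormY l (hLH hl) c hc.2⟩
    · by_contra hcon
      push Not at hcon
      -- injection from `K` to `N'`
      choose l hl hlk using hL.1
      choose y hy hyk using hY
      have hn : ∀ k, l k * (y k)⁻¹ ∈ N' := by
        intro k
        refine ⟨H.mul_mem (hLH (hl k)) (H.inv_mem (hy k).1), ?_⟩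
        show φ (l k * (y k)⁻¹) = 1
        rw [map_mul, map_inv, hlk, hyk, mul_inv_cancel]
      have hinj : Function.Injective (fun k => (⟨l k * (y k)⁻¹, hn k⟩ : N')) := by
        intro a b hab
        have h1 : l a * (y a)⁻¹ = l b * (y b)⁻¹ := congrArg Subtype.val hab
        have h2 : (l b)⁻¹ * l a = (y b)⁻¹ * y a := by
          calc (l b)⁻¹ * l a = (l b)⁻¹ * (l a * (y a)⁻¹) * y a := by group
            _ = (l b)⁻¹ * (l b * (y b)⁻¹) * y a := by rw [h1]
            _ = (y b)⁻¹ * y a := by group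
        have h3 : (l b)⁻¹ * l a ∈ L ⊓ Y :=
          ⟨L.mul_mem (L.inv_mem (hl b)) (hl a), by
            rw [h2]; exact Y.mul_mem (Y.inv_mem (hy b)) (hy a)⟩
        have h4 := hcon _ h3
        rw [map_mul, map_inv, hlk, hlk] at h4
        exact (inv_mul_eq_one.1 h4).symm
      have := Nat.card_le_card_of_injective _ hinj
      omega
  have hcent : ∀ y ∈ Y, ∀ z ∈ Y ⊓ φ.ker, y * z = z * y := by
    intro y hy z hz
    have hz' : z ∈ N' := ⟨hz.1.1, hz.2⟩
    exact (Subgroup.mem_centralizer_iff.1 hy.2 z hz').symm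
  refine ⟨fun l hl => (hLY hl).2, le_antisymm ?_ ?_⟩
  · calc L = ⁅L, L⁆ := (min_perfect hK hL).symm
      _ ≤ ⁅Y, Y⁆ := Subgroup.commutator_mono hLY hLY
  · rw [Subgroup.commutator_le]
    intro a ha b hb
    obtain ⟨la, hla, hla'⟩ := hL.1 (φ a)
    obtain ⟨lb, hlb, hlb'⟩ := hL.1 (φ b)
    have hza : la⁻¹ * a ∈ Y ⊓ φ.ker := ⟨Y.mul_mem (Y.inv_mem (hLY hla)) ha, by
      show φ (la⁻¹ * a) = 1
      rw [map_mul, map_inv, hla', inv_mul_cancel]⟩
    have hzb : lb⁻¹ * b ∈ Y ⊓ φ.ker := ⟨Y.mul_mem (Y.inv_mem (hLY hlb)) hb, by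
      show φ (lb⁻¹ * b) = 1
      rw [map_mul, map_inv, hlb', inv_mul_cancel]⟩
    clear hla' hlb'
    obtain ⟨za, ea⟩ : ∃ za, a = la * za := ⟨la⁻¹ * a, by group⟩
    obtain ⟨zb, eb⟩ : ∃ zb, b = lb * zb := ⟨lb⁻¹ * b, by group⟩
    subst ea eb
    rw [inv_mul_cancel_left] at hza hzb
    have c1 := hcent lb (hLY hlb) za hza
    have c2 := hcent la (hLY hla) zb hzb
    have c3 := hcent za hza.1 zb hzb
    have c1' : za * lb = lb * za := c1.symm
    have : ⁅la * za, lb * zb⁆ = ⁅la, lb⁆ := by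
      rw [commutatorElement_def, commutatorElement_def, mul_inv_rev, mul_inv_rev]
      have h1 : la * za * (lb * zb) = la * lb * (za * zb) := by
        calc la * za * (lb * zb) = la * (za * lb) * zb := by group
          _ = la * (lb * za) * zb := by rw [c1']
          _ = la * lb * (za * zb) := by group
      have c4 : za⁻¹ * la⁻¹ = la⁻¹ * za⁻¹ := by
        have := hcent la (hLY hla) za hza
        rw [← mul_inv_rev, ← mul_inv_rev, this]
      have c5 : zb⁻¹ * lb⁻¹ = lb⁻¹ * zb⁻¹ := by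
        have := hcent lb (hLY hlb) zb hzb
        rw [← mul_inv_rev, ← mul_inv_rev, this]
      have c6 : ∀ w ∈ Y, za * zb * w = w * (za * zb) := by
        intro w hw
        have h1 := hcent w hw za hza
        have h2 := hcent w hw zb hzb
        calc za * zb * w = za * (zb * w) := by group
          _ = za * (w * zb) := by rw [h2]
          _ = (za * w) * zb := by group
          _ = (w * za) * zb := by rw [h1]
          _ = w * (za * zb) := by group
      calc la * za * (lb * zb) * (za⁻¹ * la⁻¹) * (zb⁻¹ * lb⁻¹)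
          = la * lb * (za * zb) * (la⁻¹ * za⁻¹) * (lb⁻¹ * zb⁻¹) := by rw [h1, c4, c5]
        _ = la * lb * (za * zb * la⁻¹) * za⁻¹ * lb⁻¹ * zb⁻¹ := by group
        _ = la * lb * (la⁻¹ * (za * zb)) * za⁻¹ * lb⁻¹ * zb⁻¹ := by
            rw [c6 _ (Y.inv_mem (hLY hla))]
        _ = la * lb * la⁻¹ * (za * zb * (za⁻¹ * lb⁻¹)) * zb⁻¹ := by group
        _ = la * lb * la⁻¹ * ((za⁻¹ * lb⁻¹) * (za * zb)) * zb⁻¹ := by
            rw [c6 _ (Y.mul_mem (Y.inv_mem hza.1) (Y.inv_mem (hLY hlb)))]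
        _ = la * lb * la⁻¹ * za⁻¹ * (lb⁻¹ * za) := by group
        _ = la * lb * la⁻¹ * za⁻¹ * (za * lb⁻¹) := by
            rw [← hcent _ (Y.inv_mem (hLY hlb)) za hza]
        _ = la * lb * la⁻¹ * lb⁻¹ := by group
    rw [this]
    rw [← min_perfect hK hL]
    exact Subgroup.commutator_mem_commutator hla hlb

end Pool.Agent.K7.H87.Rig
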