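import Pool.Agent.K7.H87.Rig.ThmA

/-!
# The local condition follows from a condition on the Sylow subgroups of the kernel
-/

namespace Pool.Agent.K7.H87.Rig

universe u v

/-- The normalizer normalizes the centralizer. -/
lemma normalizer_centralizer {Γ : Type u} [Group Γ] (D : Subgroup Γ) :
    ∀ h ∈ Subgroup.normalizer (D : Set Γ), ∀ c ∈ Subgroup.centralizer (D : Set Γ),
      h * c * h⁻¹ ∈ Subgroup.centralizer (D : Set Γ) := by
  intro h hh c hc
  rw [Subgroup.mem_centralizer_iff] at hc ⊢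
  intro d hd
  have h1 : h⁻¹ * d * h ∈ D := by
    have := (Subgroup.mem_normalizer_iff.1 (Subgroup.inv_mem _ hh) d).1 hd
    rwa [inv_inv] at this
  have h2 := hc _ h1
  calc d * (h * c * h⁻¹) = h * ((h⁻¹ * d * h) * c) * h⁻¹ := by group
    _ = h * (c * (h⁻¹ * d * h)) * h⁻¹ := by rw [h2]
    _ = h * c * h⁻¹ * d := by group

variable {K : Type v} [Group K]

/-- Every Sylow subgroup `S` of `Γ` is the product of `S ∩ ker φ` and the centralizer of this group
in `S`. -/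
lemma sylow_decomp {Γ : Type u} [Group Γ] [Finite Γ] {φ : Γ →* K} [Finite K] {q : ℕ}
    [hq : Fact q.Prime] (Q : Sylow q φ.ker)
    (hQ : Cov φ (Subgroup.centralizer ((Q.map φ.ker.subtype : Subgroup Γ) : Set Γ)))
    (S : Sylow q Γ) :
    ∀ s ∈ S, ∃ u ∈ (S : Subgroup Γ) ⊓ φ.ker, ∃ c ∈ S, s = u * c ∧
      ∀ x ∈ (S : Subgroup Γ) ⊓ φ.ker, c * x = x * c := by
  classical
  set Qm : Subgroup Γ := Q.map φ.ker.subtype with hQm
  set C : Subgroup Γ := Subgroup.centralizer (Qm : Set Γ) with hC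
  have hsurj : Function.Surjective (φ.comp C.subtype) := fun k => by
    obtain ⟨h, hh, hk⟩ := hQ k
    exact ⟨⟨h, hh⟩, hk⟩
  obtain ⟨P⟩ : Nonempty (Sylow q C) := inferInstance
  set Cq : Subgroup Γ := P.map C.subtype with hCq
  have hQp : IsPGroup q Qm := Q.isPGroup'.map _
  have hCp : IsPGroup q Cq := P.isPGroup'.map _
  have hCqC : Cq ≤ C := by
    rintro _ ⟨x, _, rfl⟩
    exact x.2
  have hle : Cq ≤ Subgroup.normalizer (Qm : Set Γ) := by
    intro c hc
    have h1 := Subgroup.mem_centralizer_iff.1 (hCqC hc)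
    rw [Subgroup.mem_normalizer_iff]
    intro d
    constructor
    · intro hd
      have h2 := h1 d hd
      have : c * d * c⁻¹ = d := by rw [← h2, mul_inv_cancel_right]
      rw [this]; exact hd
    · intro hd
      have h2 := h1 _ hd
      have : c * d * c⁻¹ = d := by
        have h3 : c * d * c⁻¹ * c = c * (c * d * c⁻¹) := h2
        rw [inv_mul_cancel_right] at h3
        exact (mul_left_cancel h3).symm
      rwa [this] at hd
  have hS1 : IsPGroup q (Cq ⊔ Qm : Subgroup Γ) := IsPGroup.to_sup_of_normal_right' hCp hQp hle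
  obtain ⟨S1, hS1⟩ := hS1.exists_le_sylow
  -- the intersection with the kernel
  have hint : (S1 : Subgroup Γ) ⊓ φ.ker = Qm := by
    apply le_antisymm
    · have h1 : IsPGroup q ((S1 : Subgroup Γ).subgroupOf φ.ker) := by
        intro x
        obtain ⟨k, hk⟩ := S1.isPGroup' ⟨(x : φ.ker).1, x.2⟩
        refine ⟨k, Subtype.ext (Subtype.ext ?_)⟩
        have := congrArg Subtype.val hk
        exact this
      have h2 : (Q : Subgroup φ.ker) ≤ (S1 : Subgroup Γ).subgroupOf φ.ker := by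
        intro x hx
        exact hS1 (Subgroup.mem_sup_right ⟨x, hx, rfl⟩)
      have h3 := Q.is_maximal' h1 h2
      intro x hx
      refine ⟨⟨x, hx.2⟩, ?_, rfl⟩
      have h4 : (⟨x, hx.2⟩ : φ.ker) ∈ (S1 : Subgroup Γ).subgroupOf φ.ker := hx.1
      rw [h3] at h4
      exact h4
    · rintro x hx
      refine ⟨hS1 (Subgroup.mem_sup_right hx), ?_⟩
      obtain ⟨y, _, rfl⟩ := hx
      exact y.2
  -- the image
  have himg : (S1 : Subgroup Γ).map φ = Cq.map φ := by
    have h1 : ((P.mapSurjective hsurj : Sylow q K) : Subgroup K) = Cq.map φ := by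
      rw [Sylow.coe_mapSurjective, hCq, Subgroup.map_map]
    have h2 : IsPGroup q ((S1 : Subgroup Γ).map φ) := S1.isPGroup'.map _
    have h3 : ((P.mapSurjective hsurj : Sylow q K) : Subgroup K) ≤ (S1 : Subgroup Γ).map φ := by
      rw [h1]
      exact Subgroup.map_mono (le_sup_left.trans hS1)
    have h4 := (P.mapSurjective hsurj).is_maximal' h2 h3
    rw [h4, ← h1]
  -- the decomposition for `S1`
  have hdec1 : ∀ s ∈ S1, ∃ u ∈ (S1 : Subgroup Γ) ⊓ φ.ker, ∃ c ∈ S1, s = u * c ∧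
      ∀ x ∈ (S1 : Subgroup Γ) ⊓ φ.ker, c * x = x * c := by
    intro s hs
    have h1 : φ s ∈ Cq.map φ := by
      rw [← himg]
      exact ⟨s, hs, rfl⟩
    obtain ⟨c, hc, hcs⟩ := h1
    have hcS : c ∈ (S1 : Subgroup Γ) := hS1 (Subgroup.mem_sup_left hc)
    refine ⟨s * c⁻¹, ⟨S1.mul_mem hs (S1.inv_mem hcS), ?_⟩, c, hcS, by group, ?_⟩
    · show φ (s * c⁻¹) = 1
      rw [map_mul, map_inv, hcs, mul_inv_cancel]
    · intro x hx
      rw [hint] at hx
      exact (Subgroup.mem_centralizer_iff.1 (hCqC hc) x hx).symm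
  -- conjugation
  obtain ⟨g, hg⟩ := MulAction.exists_smul_eq Γ S1 S
  have hmem : ∀ s, s ∈ S ↔ g⁻¹ * s * g ∈ S1 := by
    intro s
    rw [← hg]
    constructor
    · rintro ⟨t, ht, rfl⟩
      have : g⁻¹ * (g * t * g⁻¹) * g = t := by group
      show g⁻¹ * (g * t * g⁻¹) * g ∈ S1
      rw [this]
      exact ht
    · intro h
      refine ⟨g⁻¹ * s * g, h, ?_⟩
      show g * (g⁻¹ * s * g) * g⁻¹ = s
      group
  have hker : ∀ x, x ∈ φ.ker → ∀ h : Γ, h * x * h⁻¹ ∈ φ.ker := fun x hx h =>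
    (inferInstance : φ.ker.Normal).conj_mem x hx h
  intro s hs
  obtain ⟨u, hu, c, hc, he, hcomm⟩ := hdec1 _ ((hmem s).1 hs)
  refine ⟨g * u * g⁻¹, ⟨?_, hker u hu.2 g⟩, g * c * g⁻¹, ?_, ?_, ?_⟩
  · show g * u * g⁻¹ ∈ S
    rw [hmem]
    have : g⁻¹ * (g * u * g⁻¹) * g = u := by group
    rw [this]
    exact hu.1
  · rw [hmem]
    have : g⁻¹ * (g * c * g⁻¹) * g = c := by group
    rw [this]
    exact hc
  · calc s = g * (g⁻¹ * s * g) * g⁻¹ := by group
      _ = g * (u * c) * g⁻¹ := by rw [he]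
      _ = _ := by group
  · intro x hx
    have h1 : g⁻¹ * x * g ∈ (S1 : Subgroup Γ) ⊓ φ.ker := by
      refine ⟨(hmem x).1 hx.1, ?_⟩
      have := hker x hx.2 g⁻¹
      rwa [inv_inv] at this
    have h2 := hcomm _ h1
    calc g * c * g⁻¹ * x = g * (c * (g⁻¹ * x * g)) * g⁻¹ := by group
      _ = g * (g⁻¹ * x * g * c) * g⁻¹ := by rw [h2]
      _ = _ := by group

theorem loc_of {Γ : Type u} [Group Γ] [Finite Γ] {φ : Γ →* K} [Finite K] [IsSimpleGroup K]
    (hS : ∀ q : ℕ, q.Prime → ∃ Q : Sylow q φ.ker,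
      Cov φ (Subgroup.centralizer ((Q.map φ.ker.subtype : Subgroup Γ) : Set Γ)))
    (hcard : ∀ q : ℕ, q.Prime → ∀ Q : Sylow q φ.ker,
      Nat.card Q ≤ q ^ (Nat.card K).factorization q) : Loc φ := by
  classical
  intro H hH q hq D hD hDq hn
  have : Fact q.Prime := ⟨hq⟩
  by_cases hqK : q ∣ Nat.card K
  swap
  · -- `D` is trivial
    have hDbot : ∀ d ∈ D, d = 1 := by
      intro d hd
      have h1 : IsPGroup q (D.subgroupOf φ.ker) := by
        intro x
        obtain ⟨k, hk⟩ := hDq ⟨(x : φ.ker).1, x.2⟩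
        refine ⟨k, Subtype.ext (Subtype.ext ?_)⟩
        have h9 := congrArg Subtype.val hk
        exact h9
      obtain ⟨Q, hQ⟩ := h1.exists_le_sylow
      have h2 := hcard q hq Q
      rw [Nat.factorization_eq_zero_of_not_dvd hqK, pow_zero] at h2
      have h3 : (⟨d, hD hd⟩ : φ.ker) ∈ (Q : Subgroup φ.ker) := hQ hd
      have h4 : Subsingleton Q := Finite.card_le_one_iff_subsingleton.1 h2
      have h5 : (⟨⟨d, hD hd⟩, h3⟩ : Q) = 1 := Subsingleton.elim _ _
      have h6 := congrArg (fun z : Q => ((z : φ.ker) : Γ)) h5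
      exact h6
    intro k
    obtain ⟨h, hh, hk⟩ := hH k
    refine ⟨h, ⟨hh, ?_⟩, hk⟩
    show h ∈ Subgroup.centralizer (D : Set Γ)
    rw [Subgroup.mem_centralizer_iff]
    intro d hd
    rw [hDbot d hd, one_mul, mul_one]
  -- the main case
  have hsurj : Function.Surjective (φ.comp H.subtype) := fun k => by
    obtain ⟨h, hh, hk⟩ := hH k
    exact ⟨⟨h, hh⟩, hk⟩
  obtain ⟨P⟩ : Nonempty (Sylow q H) := inferInstance
  set Hq : Subgroup Γ := P.map H.subtype with hHq
  have hHqH : Hq ≤ H := by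
    rintro _ ⟨x, _, rfl⟩
    exact x.2
  have hHp : IsPGroup q Hq := P.isPGroup'.map _
  have hle : Hq ≤ Subgroup.normalizer (D : Set Γ) := by
    rw [Subgroup.le_normalizer_iff]
    exact fun h hh d hd => hn h (hHqH hh) d hd
  have hW : IsPGroup q (Hq ⊔ D : Subgroup Γ) := IsPGroup.to_sup_of_normal_right' hHp hDq hle
  obtain ⟨S, hSW⟩ := hW.exists_le_sylow
  obtain ⟨Q, hQ⟩ := hS q hq
  have hdec := sylow_decomp Q hQ S
  set R : Subgroup Γ := (S : Subgroup Γ) ⊓ φ.ker with hR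
  have hRp : IsPGroup q R := by
    intro x
    obtain ⟨k, hk⟩ := S.isPGroup' ⟨x.1, x.2.1⟩
    refine ⟨k, Subtype.ext ?_⟩
    have h9 := congrArg Subtype.val hk
    exact h9
  have hRcard : Nat.card R ≤ q ^ (Nat.card K).factorization q := by
    have h1 : IsPGroup q (R.subgroupOf φ.ker) := by
      intro x
      obtain ⟨k, hk⟩ := hRp ⟨(x : φ.ker).1, x.2⟩
      refine ⟨k, Subtype.ext (Subtype.ext ?_)⟩
      have h9 := congrArg Subtype.val hk
      exact h9
    obtain ⟨Q', hQ'⟩ := h1.exists_le_sylow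
    refine le_trans ?_ (hcard q hq Q')
    have h2 : Nat.card (R.subgroupOf φ.ker) = Nat.card R :=
      Nat.card_congr (Subgroup.subgroupOfEquivOfLe (inf_le_right : R ≤ φ.ker)).toEquiv
    rw [← h2]
    exact Subgroup.card_le_of_le hQ'
  have hDR : D ≤ R := le_inf (le_sup_right.trans hSW) hD
  by_contra hcon
  have hall : ∀ c ∈ H ⊓ Subgroup.centralizer (D : Set Γ), φ c = 1 := by
    by_contra h
    push Not at h
    apply hcon
    refine hH.of_normal ?_ h
    intro h hh c hc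
    refine ⟨H.mul_mem (H.mul_mem hh hc.1) (H.inv_mem hh), ?_⟩
    show h * c * h⁻¹ ∈ Subgroup.centralizer (D : Set Γ)
    rw [Subgroup.mem_centralizer_iff]
    intro d hd
    have h1 : h⁻¹ * d * h ∈ D := by
      have := hn h⁻¹ (H.inv_mem hh) d hd
      simpa using this
    have h2 := Subgroup.mem_centralizer_iff.1 hc.2 _ h1
    calc d * (h * c * h⁻¹) = h * ((h⁻¹ * d * h) * c) * h⁻¹ := by group
      _ = h * (c * (h⁻¹ * d * h)) * h⁻¹ := by rw [h2]
      _ = h * c * h⁻¹ * d := by group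
  -- the Sylow subgroup of `K`
  let PK : Sylow q K := P.mapSurjective hsurj
  have hPK : Nat.card PK = q ^ (Nat.card K).factorization q := PK.card_eq_multiplicity
  have hPKmem : ∀ κ : PK, ∃ h ∈ Hq, φ h = κ := by
    intro κ
    have h1 : (κ : K) ∈ (P : Subgroup H).map (φ.comp H.subtype) := κ.2
    obtain ⟨x, hx, hk⟩ := h1
    exact ⟨x, ⟨x, hx, rfl⟩, hk⟩
  choose h hh hhk using hPKmem
  have hdec' : ∀ κ : PK, ∃ u ∈ R, ∃ c ∈ S, h κ = u * c ∧ ∀ x ∈ R, c * x = x * c := fun κ =>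
    hdec (h κ) (hSW (Subgroup.mem_sup_left (hh κ)))
  choose u hu c hc hhuc hcomm using hdec'
  have hinj : Function.Injective
      (fun p : PK × Subgroup.center R => (⟨u p.1, hu p.1⟩ : R) * (p.2 : R)) := by
    rintro ⟨κ, z⟩ ⟨κ', z'⟩ he
    have he1 : u κ * ((z : R) : Γ) = u κ' * ((z' : R) : Γ) := congrArg Subtype.val he
    have hz : ∀ w : Subgroup.center R, ∀ x ∈ R, ((w : R) : Γ) * x = x * ((w : R) : Γ) := by
      intro w x hx
      exact (congrArg Subtype.val ((Subgroup.mem_center_iff.1 w.2) ⟨x, hx⟩)).symm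
    have h1 : (h κ')⁻¹ * h κ ∈ H ⊓ Subgroup.centralizer (D : Set Γ) := by
      refine ⟨H.mul_mem (H.inv_mem (hHqH (hh κ'))) (hHqH (hh κ)), ?_⟩
      show (h κ')⁻¹ * h κ ∈ Subgroup.centralizer (D : Set Γ)
      rw [Subgroup.mem_centralizer_iff]
      intro d hd
      have hdR := hDR hd
      have e1 : (h κ')⁻¹ * h κ = (c κ')⁻¹ * (((z' : R) : Γ) * ((z : R) : Γ)⁻¹) * c κ := by
        rw [hhuc κ, hhuc κ']
        have e2 : (u κ')⁻¹ * u κ = ((z' : R) : Γ) * ((z : R) : Γ)⁻¹ := by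
          calc (u κ')⁻¹ * u κ = (u κ')⁻¹ * (u κ * ((z : R) : Γ)) * ((z : R) : Γ)⁻¹ := by group
            _ = (u κ')⁻¹ * (u κ' * ((z' : R) : Γ)) * ((z : R) : Γ)⁻¹ := by rw [he1]
            _ = _ := by group
        calc (u κ' * c κ')⁻¹ * (u κ * c κ) = (c κ')⁻¹ * ((u κ')⁻¹ * u κ) * c κ := by group
          _ = _ := by rw [e2]
      rw [e1]
      have k1 : c κ * d = d * c κ := hcomm κ d hdR
      have k2 : (c κ')⁻¹ * d = d * (c κ')⁻¹ := by
        have := hcomm κ' d hdR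
        calc (c κ')⁻¹ * d = (c κ')⁻¹ * (d * c κ') * (c κ')⁻¹ := by group
          _ = (c κ')⁻¹ * (c κ' * d) * (c κ')⁻¹ := by rw [this]
          _ = d * (c κ')⁻¹ := by group
      have k3 : ((z' : R) : Γ) * d = d * ((z' : R) : Γ) := hz z' d hdR
      have k4 : ((z : R) : Γ)⁻¹ * d = d * ((z : R) : Γ)⁻¹ := by
        have := hz z d hdR
        calc ((z : R) : Γ)⁻¹ * d = ((z : R) : Γ)⁻¹ * (d * ((z : R) : Γ)) * ((z : R) : Γ)⁻¹ := by
              group
          _ = ((z : R) : Γ)⁻¹ * (((z : R) : Γ) * d) * ((z : R) : Γ)⁻¹ := by rw [this]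
          _ = d * ((z : R) : Γ)⁻¹ := by group
      symm
      calc (c κ')⁻¹ * (((z' : R) : Γ) * ((z : R) : Γ)⁻¹) * c κ * d
          = (c κ')⁻¹ * ((z' : R) : Γ) * ((z : R) : Γ)⁻¹ * (c κ * d) := by group
        _ = (c κ')⁻¹ * ((z' : R) : Γ) * ((z : R) : Γ)⁻¹ * (d * c κ) := by rw [k1]
        _ = (c κ')⁻¹ * ((z' : R) : Γ) * (((z : R) : Γ)⁻¹ * d) * c κ := by group
        _ = (c κ')⁻¹ * ((z' : R) : Γ) * (d * ((z : R) : Γ)⁻¹) * c κ := by rw [k4]
        _ = (c κ')⁻¹ * (((z' : R) : Γ) * d) * ((z : R) : Γ)⁻¹ * c κ := by group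
        _ = (c κ')⁻¹ * (d * ((z' : R) : Γ)) * ((z : R) : Γ)⁻¹ * c κ := by rw [k3]
        _ = ((c κ')⁻¹ * d) * ((z' : R) : Γ) * ((z : R) : Γ)⁻¹ * c κ := by group
        _ = (d * (c κ')⁻¹) * ((z' : R) : Γ) * ((z : R) : Γ)⁻¹ * c κ := by rw [k2]
        _ = d * ((c κ')⁻¹ * (((z' : R) : Γ) * ((z : R) : Γ)⁻¹) * c κ) := by group
    have h2 := hall _ h1
    rw [map_mul, map_inv, hhk, hhk] at h2
    have h3 : κ' = κ := Subtype.ext (inv_mul_eq_one.1 h2)
    subst h3
    have h4 : ((z : R) : Γ) = ((z' : R) : Γ) := mul_left_cancel he1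
    have h5 : z = z' := Subtype.ext (Subtype.ext h4)
    rw [h5]
  have h1 := Nat.card_le_card_of_injective _ hinj
  rw [Nat.card_prod, hPK] at h1
  have hpos : 0 < q ^ (Nat.card K).factorization q := pow_pos hq.pos _
  have h2 : Nat.card (Subgroup.center R) ≤ 1 := by
    by_contra hlt
    push Not at hlt
    have : q ^ (Nat.card K).factorization q * 2 ≤
        q ^ (Nat.card K).factorization q * Nat.card (Subgroup.center R) :=
      Nat.mul_le_mul_left _ hlt
    omega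
  have h3 : Subsingleton R := by
    by_contra hns
    rw [not_subsingleton_iff_nontrivial] at hns
    have h4 := hRp.center_nontrivial
    have h5 : Subsingleton (Subgroup.center R) := Finite.card_le_one_iff_subsingleton.1 h2
    exact not_subsingleton _ h5
  have h6 : Nat.card R = 1 := Nat.card_eq_one_iff_unique.2 ⟨h3, ⟨1⟩⟩
  rw [h6] at h1
  have h7 : 2 ≤ q ^ (Nat.card K).factorization q := by
    have h8 : (Nat.card K).factorization q ≠ 0 := by
      rw [← Nat.pos_iff_ne_zero]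
      exact hq.factorization_pos_of_dvd Nat.card_pos.ne' hqK
    calc 2 ≤ q := hq.two_le
      _ ≤ q ^ (Nat.card K).factorization q := Nat.le_self_pow h8 q
  have h9 : 0 < Nat.card (Subgroup.center R) := Nat.card_pos
  have h10 : 2 ≤ q ^ (Nat.card K).factorization q * Nat.card (Subgroup.center R) :=
    le_trans h7 (Nat.le_mul_of_pos_right _ h9)
  omega

end Pool.Agent.K7.H87.Rig
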