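import Pool.Agent.K7.H87.Rig.Cov

/-!
# The centralizer of the kernel is covering
-/

open scoped commutatorElement

namespace Pool.Agent.K7.H87.Rig

universe u v

/-- An element outside a subgroup has a power of prime power order outside the subgroup. -/
lemma exists_prime_part {G : Type*} [Group G] [Finite G] (Z : Subgroup G) {x : G} (hx : x ∉ Z) :
    ∃ q : ℕ, q.Prime ∧ ∃ b a : ℕ, (x ^ b) ^ q ^ a = 1 ∧ x ^ b ∉ Z := by
  classical
  have hn : 0 < orderOf x := orderOf_pos x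
  have hex : ∃ k, 0 < k ∧ x ^ k ∈ Z := ⟨orderOf x, hn, by rw [pow_orderOf_eq_one]; exact Z.one_mem⟩
  let m := Nat.find hex
  have hm : 0 < m ∧ x ^ m ∈ Z := Nat.find_spec hex
  have hmin : ∀ k, k < m → ¬(0 < k ∧ x ^ k ∈ Z) := fun k hk => Nat.find_min hex hk
  have hm1 : m ≠ 1 := by
    intro h
    apply hx
    have := hm.2
    rwa [h, pow_one] at this
  have hq : (Nat.minFac m).Prime := Nat.minFac_prime hm1
  set q := Nat.minFac m with hqdef
  have hqm : q ∣ m := Nat.minFac_dvd m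
  refine ⟨q, hq, orderOf x / q ^ (orderOf x).factorization q, (orderOf x).factorization q, ?_, ?_⟩
  · rw [← pow_mul, Nat.div_mul_cancel (Nat.ordProj_dvd _ _), pow_orderOf_eq_one]
  · intro hb
    have hnd : ¬ q ∣ orderOf x / q ^ (orderOf x).factorization q :=
      Nat.not_dvd_ordCompl hq hn.ne'
    set b := orderOf x / q ^ (orderOf x).factorization q with hbdef
    apply hnd
    refine hqm.trans ?_
    have h1 : x ^ (b % m) ∈ Z := by
      have h2 : x ^ b = (x ^ m) ^ (b / m) * x ^ (b % m) := by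
        rw [← pow_mul, ← pow_add, Nat.div_add_mod]
      have h3 : x ^ (b % m) = ((x ^ m) ^ (b / m))⁻¹ * x ^ b := by
        rw [h2, inv_mul_cancel_left]
      rw [h3]
      exact Z.mul_mem (Z.inv_mem (Z.pow_mem hm.2 _)) hb
    have h4 := hmin (b % m) (Nat.mod_lt _ hm.1)
    have h5 : b % m = 0 := by
      by_contra hne
      exact h4 ⟨Nat.pos_of_ne_zero hne, h1⟩
    exact Nat.dvd_of_mod_eq_zero h5

variable {K : Type v} [Group K]

lemma cov_of_sup_ker {Γ : Type u} [Group Γ] {φ : Γ →* K} (hφ : Function.Surjective φ)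
    {H : Subgroup Γ} (h : H ⊔ φ.ker = ⊤) : Cov φ H := by
  intro k
  obtain ⟨g, rfl⟩ := hφ k
  have : g ∈ H ⊔ φ.ker := by rw [h]; trivial
  obtain ⟨y, hy, z, hz, rfl⟩ := Subgroup.mem_sup_of_normal_right.1 this
  refine ⟨y, hy, ?_⟩
  rw [map_mul, show φ z = 1 from hz, mul_one]

/-- The normalizer of a Sylow subgroup of the kernel is covering. -/
lemma cov_normalizer {Γ : Type u} [Group Γ] [Finite Γ] {φ : Γ →* K}
    (hφ : Function.Surjective φ) {q : ℕ} (hq : q.Prime) (Q : Sylow q φ.ker) :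
    Cov φ (Subgroup.normalizer ((Q.map φ.ker.subtype : Subgroup Γ) : Set Γ)) := by
  have : Fact q.Prime := ⟨hq⟩
  exact cov_of_sup_ker hφ (Sylow.normalizer_sup_eq_top Q)

lemma cov_centralizer_sylow {Γ : Type u} [Group Γ] [Finite Γ] {φ : Γ →* K}
    (hφ : Function.Surjective φ) (hloc : Loc φ) {q : ℕ} (hq : q.Prime) (Q : Sylow q φ.ker) :
    Cov φ (Subgroup.centralizer ((Q.map φ.ker.subtype : Subgroup Γ) : Set Γ)) := by
  refine (hloc _ (cov_normalizer hφ hq Q) q hq (Q.map φ.ker.subtype) ?_ (Q.isPGroup'.map _)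
    ?_).mono inf_le_right
  · rintro _ ⟨x, _, rfl⟩
    exact x.2
  · intro h hh d hd
    exact (Subgroup.mem_normalizer_iff.1 hh d).1 hd

lemma cov_centralizer {Γ : Type u} [Group Γ] [Finite Γ] {φ : Γ →* K}
    (hφ : Function.Surjective φ) (hloc : Loc φ) {q : ℕ} (hq : q.Prime) {y : Γ} (hy : y ∈ φ.ker)
    {a : ℕ} (hya : y ^ q ^ a = 1) : Cov φ (Subgroup.centralizer {y}) := by
  have : Fact q.Prime := ⟨hq⟩
  have hp : IsPGroup q (Subgroup.zpowers (⟨y, hy⟩ : φ.ker)) := by
    rintro ⟨_, k, rfl⟩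
    refine ⟨a, Subtype.ext (Subtype.ext ?_)⟩
    show (y ^ k) ^ q ^ a = 1
    rw [← zpow_natCast, ← zpow_mul, mul_comm, zpow_mul, zpow_natCast, hya, one_zpow]
  obtain ⟨Q, hQ⟩ := hp.exists_le_sylow
  refine (cov_centralizer_sylow hφ hloc hq Q).mono ?_
  intro g hg
  rw [Subgroup.mem_centralizer_singleton_iff]
  exact ((Subgroup.mem_centralizer_iff.1 hg) y
    ⟨⟨y, hy⟩, hQ (Subgroup.mem_zpowers _), rfl⟩).symm

/-- An element of the kernel which normalizes a minimal covering subgroup, whose intersection with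
the kernel is central, centralizes it. -/
lemma centralizes_of_normalizes {Γ : Type u} [Group Γ] {φ : Γ →* K} {L : Subgroup Γ}
    (hperf : ⁅L, L⁆ = L) (hz : ∀ z ∈ L ⊓ φ.ker, ∀ l ∈ L, l * z = z * l) {g : Γ} (hg : g ∈ φ.ker)
    (hgL : ∀ l ∈ L, g * l * g⁻¹ ∈ L) : ∀ l ∈ L, l * g = g * l := by
  have hc : ∀ l ∈ L, g * l * g⁻¹ * l⁻¹ ∈ L ⊓ φ.ker := by
    intro l hl
    refine ⟨L.mul_mem (hgL l hl) (L.inv_mem hl), ?_⟩
    show φ (g * l * g⁻¹ * l⁻¹) = 1
    simp [show φ g = 1 from hg]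
  have hle : ⁅L, L⁆ ≤ Subgroup.centralizer {g} := by
    rw [Subgroup.commutator_le]
    intro a ha b hb
    rw [Subgroup.mem_centralizer_singleton_iff]
    obtain ⟨ca, hca⟩ : ∃ c, g * a * g⁻¹ * a⁻¹ = c := ⟨_, rfl⟩
    obtain ⟨cb, hcb⟩ : ∃ c, g * b * g⁻¹ * b⁻¹ = c := ⟨_, rfl⟩
    have hca' := hc a ha
    have hcb' := hc b hb
    rw [hca] at hca'
    rw [hcb] at hcb'
    have ea : g * a * g⁻¹ = ca * a := by rw [← hca]; group
    have eb : g * b * g⁻¹ = cb * b := by rw [← hcb]; group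
    have h1 : g * ⁅a, b⁆ * g⁻¹ = ⁅a, b⁆ := by
      have e1 : g * ⁅a, b⁆ * g⁻¹ =
          (g * a * g⁻¹) * (g * b * g⁻¹) * (g * a * g⁻¹)⁻¹ * (g * b * g⁻¹)⁻¹ := by
        rw [commutatorElement_def]; group
      rw [e1, ea, eb, commutatorElement_def]
      have c1 := hz ca hca' a ha
      have c2 := hz cb hcb' a ha
      have c3 := hz ca hca' b hb
      have c4 := hz cb hcb' b hb
      have c5 := hz ca hca' cb hcb'.1
      have d1 := hz ca hca' _ (L.inv_mem ha)
      have d2 := hz cb hcb' _ (L.inv_mem ha)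
      have d3 := hz cb hcb' _ (L.inv_mem hb)
      calc ca * a * (cb * b) * (ca * a)⁻¹ * (cb * b)⁻¹
          = ca * (a * cb) * b * a⁻¹ * ca⁻¹ * b⁻¹ * cb⁻¹ := by group
        _ = ca * (cb * a) * b * a⁻¹ * ca⁻¹ * b⁻¹ * cb⁻¹ := by rw [c2]
        _ = (ca * cb) * a * b * a⁻¹ * ca⁻¹ * b⁻¹ * cb⁻¹ := by group
        _ = (cb * ca) * a * b * a⁻¹ * ca⁻¹ * b⁻¹ * cb⁻¹ := by rw [c5]
        _ = cb * (ca * (a * b * a⁻¹)) * ca⁻¹ * b⁻¹ * cb⁻¹ := by group
        _ = cb * ((a * b * a⁻¹) * ca) * ca⁻¹ * b⁻¹ * cb⁻¹ := by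
            rw [hz ca hca' _ (L.mul_mem (L.mul_mem ha hb) (L.inv_mem ha))]
        _ = cb * (a * b * a⁻¹ * b⁻¹) * cb⁻¹ := by group
        _ = (a * b * a⁻¹ * b⁻¹) * cb * cb⁻¹ := by
            rw [hz cb hcb' _ (L.mul_mem (L.mul_mem (L.mul_mem ha hb) (L.inv_mem ha))
              (L.inv_mem hb))]
        _ = a * b * a⁻¹ * b⁻¹ := by group
    calc ⁅a, b⁆ * g = (g * ⁅a, b⁆ * g⁻¹) * g := by rw [h1]
      _ = g * ⁅a, b⁆ := by group
  intro l hl
  rw [hperf] at hle
  exact Subgroup.mem_centralizer_singleton_iff.1 (hle hl)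

variable [IsSimpleGroup K] [Finite K]

theorem thmA (hK : commutator K = ⊤) : ∀ (n : ℕ) (Γ : Type u) [Group Γ] [Finite Γ] (φ : Γ →* K),
    Function.Surjective φ → Nat.card φ.ker = n → n ≤ Nat.card K → Loc φ →
    Cov φ (Subgroup.centralizer (φ.ker : Set Γ)) := by
  intro n
  induction n using Nat.strong_induction_on with
  | _ n ih =>
  intro Γ _ _ φ hφ hcard hnK hloc
  have htop : Cov φ (⊤ : Subgroup Γ) := fun k => by
    obtain ⟨g, hg⟩ := hφ k
    exact ⟨g, trivial, hg⟩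
  -- the induction hypothesis for subgroups
  have sub : ∀ H : Subgroup Γ, Cov φ H → Nat.card (H ⊓ φ.ker : Subgroup Γ) < n →
      Cov φ (H ⊓ Subgroup.centralizer ((H ⊓ φ.ker : Subgroup Γ) : Set Γ)) := by
    intro H hH hlt
    have hsurj : Function.Surjective (φ.comp H.subtype) := fun k => by
      obtain ⟨h, hh, hk⟩ := hH k
      exact ⟨⟨h, hh⟩, hk⟩
    have hker : Nat.card (φ.comp H.subtype).ker = Nat.card (H ⊓ φ.ker : Subgroup Γ) := by
      refine Nat.card_congr ⟨fun x => ⟨x.1.1, x.1.2, x.2⟩, fun y => ⟨⟨y.1, y.2.1⟩, y.2.2⟩, ?_, ?_⟩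
      · intro x; rfl
      · intro y; rfl
    have h1 := ih _ hlt H (φ.comp H.subtype) hsurj hker (hlt.le.trans hnK) (hloc.subgroup H)
    intro k
    obtain ⟨x, hx, hk⟩ := h1 k
    refine ⟨x, ⟨x.2, ?_⟩, hk⟩
    show (x : Γ) ∈ Subgroup.centralizer ((H ⊓ φ.ker : Subgroup Γ) : Set Γ)
    rw [Subgroup.mem_centralizer_iff]
    intro y hy
    exact congrArg Subtype.val ((Subgroup.mem_centralizer_iff.1 hx) ⟨y, hy.1⟩ hy.2)
  -- the center of the kernel
  let N : Subgroup Γ := φ.ker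
  let Z : Subgroup N := Subgroup.center N
  -- for an element outside the center
  have hlt : ∀ x : N, x ∉ Z →
      Nat.card (Subgroup.centralizer {(x : Γ)} ⊓ φ.ker : Subgroup Γ) < n := by
    intro x hx
    rw [← hcard]
    refine lt_of_le_of_ne (Subgroup.card_le_of_le inf_le_right) fun heq => hx ?_
    have h1 : (Subgroup.centralizer {(x : Γ)} ⊓ φ.ker : Subgroup Γ) = φ.ker :=
      Subgroup.eq_of_le_of_card_ge inf_le_right heq.ge
    rw [Subgroup.mem_center_iff]
    intro g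
    have h2 : (g : Γ) ∈ (Subgroup.centralizer {(x : Γ)} ⊓ φ.ker : Subgroup Γ) := by
      rw [h1]; exact g.2
    exact Subtype.ext (Subgroup.mem_centralizer_singleton_iff.1 h2.1)
  -- covering centralizers
  have hcovprime : ∀ (y : N) (q a : ℕ), q.Prime → y ^ q ^ a = 1 →
      Cov φ (Subgroup.centralizer {(y : Γ)}) := by
    intro y q a hq hy
    exact cov_centralizer hφ hloc hq y.2 (a := a) (by
      have := congrArg Subtype.val hy
      simpa using this)
  -- the data for an element outside the center: existence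
  have hex : ∀ x : N, x ∉ Z → ∃ L : Subgroup Γ, Minimal (Cov φ) L ∧
      (∀ l ∈ L, l * (x : Γ) = x * l) ∧ (∀ z ∈ L ⊓ φ.ker, ∀ l ∈ L, l * z = z * l) := by
    intro x hx
    obtain ⟨q, hq, b, a, h1, h2⟩ := exists_prime_part Z hx
    have hc := hcovprime (x ^ b) q a hq h1
    have hs := sub _ hc (hlt _ h2)
    obtain ⟨L, hLH, hL⟩ := exists_min hc
    obtain ⟨hL1, hL2⟩ := unique_min hK _ ((hlt _ h2).trans_le hnK) hs hL hLH
    refine ⟨L, hL, ?_, ?_⟩
    · intro l hl
      have h3 : (x : Γ) ∈ (Subgroup.centralizer {((x ^ b : N) : Γ)} ⊓ φ.ker : Subgroup Γ) := by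
        refine ⟨?_, x.2⟩
        show (x : Γ) ∈ Subgroup.centralizer {((x ^ b : N) : Γ)}
        rw [Subgroup.mem_centralizer_singleton_iff]
        show (x : Γ) * (x : Γ) ^ b = (x : Γ) ^ b * x
        exact (pow_mul_comm' _ _).symm
      exact ((Subgroup.mem_centralizer_iff.1 (hL1 hl)) _ h3).symm
    · intro z hz l hl
      have h3 : z ∈ (Subgroup.centralizer {((x ^ b : N) : Γ)} ⊓ φ.ker : Subgroup Γ) :=
        ⟨hLH hz.1, hz.2⟩
      exact ((Subgroup.mem_centralizer_iff.1 (hL1 hl)) _ h3).symm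
  -- uniqueness
  have huniq : ∀ x : N, x ∉ Z → ∀ L L' : Subgroup Γ, Minimal (Cov φ) L → Minimal (Cov φ) L' →
      (∀ l ∈ L, l * (x : Γ) = x * l) → (∀ l ∈ L', l * (x : Γ) = x * l) → L = L' ∧
      L ≤ Subgroup.centralizer
        ((Subgroup.centralizer {(x : Γ)} ⊓ φ.ker : Subgroup Γ) : Set Γ) := by
    intro x hx L L' hL hL' h h'
    have hle : ∀ L : Subgroup Γ, (∀ l ∈ L, l * (x : Γ) = x * l) →
        L ≤ Subgroup.centralizer {(x : Γ)} := fun L h l hl =>
      Subgroup.mem_centralizer_singleton_iff.2 (h l hl)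
    have hc : Cov φ (Subgroup.centralizer {(x : Γ)}) := hL.1.mono (hle L h)
    have hs := sub _ hc (hlt _ hx)
    obtain ⟨h1, h2⟩ := unique_min hK _ ((hlt _ hx).trans_le hnK) hs hL (hle L h)
    obtain ⟨h3, h4⟩ := unique_min hK _ ((hlt _ hx).trans_le hnK) hs hL' (hle L' h')
    exact ⟨h2.trans h4.symm, h1⟩
  classical
  choose! Lf hLmin hLx hLz using hex
  -- the subgroups of the kernel
  let M : N → Subgroup N := fun x => (Subgroup.centralizer (Lf x : Set Γ)).subgroupOf N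
  have hM : ∀ x y : N, y ∈ M x ↔ ∀ l ∈ Lf x, l * (y : Γ) = y * l := by
    intro x y
    show (y : Γ) ∈ Subgroup.centralizer (Lf x : Set Γ) ↔ _
    rw [Subgroup.mem_centralizer_iff]
    rfl
  have hsame : ∀ x y : N, x ∉ Z → y ∉ Z → y ∈ M x → Lf y = Lf x := by
    intro x y hx hy hyx
    exact ((huniq y hy (Lf x) (Lf y) (hLmin x hx) (hLmin y hy) ((hM x y).1 hyx) (hLx y hy)).1).symm
  have hZconj : ∀ x g : N, x ∉ Z → g * x * g⁻¹ ∉ Z := by
    intro x g hx h
    apply hx
    have := (inferInstance : Z.Normal).conj_mem _ h g⁻¹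
    simpa [mul_assoc] using this
  have hLconj : ∀ x g : N, x ∉ Z →
      (Lf x).map (MulAut.conj (g : Γ)).toMonoidHom = Lf (g * x * g⁻¹) := by
    intro x g hx
    refine (huniq (g * x * g⁻¹) (hZconj x g hx) _ _ (min_conj (hLmin x hx) g)
      (hLmin _ (hZconj x g hx)) ?_ (hLx _ (hZconj x g hx))).1
    rintro _ ⟨l, hl, rfl⟩
    show ((g : Γ) * l * (g : Γ)⁻¹) * ((g : Γ) * x * (g : Γ)⁻¹) =
      ((g : Γ) * x * (g : Γ)⁻¹) * ((g : Γ) * l * (g : Γ)⁻¹)
    have h1 := hLx x hx l hl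
    calc ((g : Γ) * l * (g : Γ)⁻¹) * ((g : Γ) * x * (g : Γ)⁻¹)
        = (g : Γ) * (l * x) * (g : Γ)⁻¹ := by group
      _ = (g : Γ) * (x * l) * (g : Γ)⁻¹ := by rw [h1]
      _ = _ := by group
  by_cases hall : ∀ x : N, x ∈ Z
  · -- the kernel is commutative
    obtain ⟨L, -, hL⟩ := exists_min htop
    have hcomm : ∀ x y : N, x * y = y * x := fun x y => (Subgroup.mem_center_iff.1 (hall y)) x
    let M' : Subgroup N := (Subgroup.centralizer (L : Set Γ)).subgroupOf N
    have hLN : ∀ x : N, x ∈ M' := by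
      intro x
      by_contra hx
      obtain ⟨q, hq, b, a, h1, h2⟩ := exists_prime_part M' hx
      have : Fact q.Prime := ⟨hq⟩
      set y : N := x ^ b with hy
      have hp : IsPGroup q (Subgroup.zpowers y) := by
        rintro ⟨_, k, rfl⟩
        refine ⟨a, Subtype.ext ?_⟩
        show (y ^ k) ^ q ^ a = 1
        rw [← zpow_natCast, ← zpow_mul, mul_comm, zpow_mul, zpow_natCast, h1, one_zpow]
      obtain ⟨Q, hQ⟩ := hp.exists_le_sylow
      have hnt : Subgroup.normalizer ((Q.map φ.ker.subtype : Subgroup Γ) : Set Γ) = ⊤ := by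
        rw [← Sylow.normalizer_sup_eq_top Q, eq_comm, sup_eq_left]
        intro n hn
        rw [Subgroup.mem_normalizer_iff]
        intro d
        constructor
        · rintro ⟨d', hd', rfl⟩
          refine ⟨d', hd', ?_⟩
          have := congrArg Subtype.val (hcomm ⟨n, hn⟩ d')
          show (d' : Γ) = n * d' * n⁻¹
          have h3 : n * (d' : Γ) = d' * n := this
          rw [h3, mul_inv_cancel_right]
        · rintro ⟨d', hd', he⟩
          refine ⟨d', hd', ?_⟩
          have := congrArg Subtype.val (hcomm ⟨n, hn⟩ d')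
          have h3 : n * (d' : Γ) = d' * n := this
          have h4 : (d' : Γ) = n * d * n⁻¹ := he
          show (d' : Γ) = d
          calc (d' : Γ) = n⁻¹ * (n * d') := by group
            _ = n⁻¹ * (d' * n) := by rw [h3]
            _ = n⁻¹ * (n * d * n⁻¹ * n) := by rw [h4]
            _ = d := by group
      have hc := hloc L hL.1 q hq (Q.map φ.ker.subtype) (by
        rintro _ ⟨x, _, rfl⟩
        exact x.2) (Q.isPGroup'.map _) (by
        intro h _ d hd
        have h5 : h ∈ Subgroup.normalizer ((Q.map φ.ker.subtype : Subgroup Γ) : Set Γ) := by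
          rw [hnt]; trivial
        exact (Subgroup.mem_normalizer_iff.1 h5 d).1 hd)
      have hle := min_le hL hc
      apply h2
      show (y : Γ) ∈ Subgroup.centralizer (L : Set Γ)
      rw [Subgroup.mem_centralizer_iff]
      intro l hl
      exact ((Subgroup.mem_centralizer_iff.1 (hle hl)) y ⟨y, hQ (Subgroup.mem_zpowers _), rfl⟩).symm
    refine hL.1.mono fun l hl => ?_
    rw [Subgroup.mem_centralizer_iff]
    intro n hn
    exact ((Subgroup.mem_centralizer_iff.1 (hLN ⟨n, hn⟩)) l hl).symm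
  · push Not at hall
    obtain ⟨x, hx⟩ := hall
    have hMtop := count Z M
      (fun x hx => (hM x x).2 (hLx x hx))
      (fun x hx z hz => (hM x z).2 (by
        intro l hl
        have h1 := (huniq x hx (Lf x) (Lf x) (hLmin x hx) (hLmin x hx) (hLx x hx) (hLx x hx)).2 hl
        have h2 : (z : Γ) ∈ (Subgroup.centralizer {(x : Γ)} ⊓ φ.ker : Subgroup Γ) := by
          refine ⟨?_, z.2⟩
          show (z : Γ) ∈ Subgroup.centralizer {(x : Γ)}
          rw [Subgroup.mem_centralizer_singleton_iff]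
          exact (congrArg Subtype.val ((Subgroup.mem_center_iff.1 hz) x)).symm
        exact ((Subgroup.mem_centralizer_iff.1 h1) _ h2).symm))
      (fun x y hx hy hyx => by
        show (Subgroup.centralizer (Lf y : Set Γ)).subgroupOf N = _
        rw [hsame x y hx hy hyx])
      (fun x hx g m hm hmZ hgm => by
        have e1 := hsame x m hx hmZ hm
        have e2 := hsame x _ hx (hZconj m g hmZ) hgm
        have e3 := hLconj m g hmZ
        rw [e1, e2] at e3
        rw [hM]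
        refine centralizes_of_normalizes (min_perfect hK (hLmin x hx)) (hLz x hx) g.2 ?_
        intro l hl
        rw [← e3]
        exact ⟨l, hl, rfl⟩)
      (fun x g hx z hz => by
        rw [hM] at hz ⊢
        rw [← hLconj x g hx]
        rintro _ ⟨l, hl, rfl⟩
        show ((g : Γ) * l * (g : Γ)⁻¹) * ((g : Γ) * z * (g : Γ)⁻¹) =
          ((g : Γ) * z * (g : Γ)⁻¹) * ((g : Γ) * l * (g : Γ)⁻¹)
        have h1 := hz l hl
        calc ((g : Γ) * l * (g : Γ)⁻¹) * ((g : Γ) * z * (g : Γ)⁻¹)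
            = (g : Γ) * (l * z) * (g : Γ)⁻¹ := by group
          _ = (g : Γ) * (z * l) * (g : Γ)⁻¹ := by rw [h1]
          _ = _ := by group) x hx
    refine (hLmin x hx).1.mono fun l hl => ?_
    rw [Subgroup.mem_centralizer_iff]
    intro n hn
    have h1 : (⟨n, hn⟩ : N) ∈ M x := by rw [hMtop]; trivial
    exact ((hM x _).1 h1 l hl).symm

end Pool.Agent.K7.H87.Rig
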